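import Pool.Agent.H38.WT.Targets

/-!
# The cuts of a tree are nested, disjoint or cover
-/

set_option autoImplicit false

noncomputable section

namespace Pool.Agent.H20.WT

open Pool.Agent.H38.WT

theorem exists_edge {V : Type} (X : SimpleGraph V) (P : V → Prop) {a b : V}
    (h : X.Reachable a b) (ha : P a) (hb : ¬ P b) : ∃ p q, X.Adj p q ∧ P p ∧ ¬ P q := by
  obtain ⟨w⟩ := h
  induction w with
  | nil => exact absurd ha hb
  | cons hadj w ih =>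
    rename_i x y z
    by_cases hy : P y
    · exact ih hy hb
    · exact ⟨x, y, hadj, ha, hy⟩

theorem reach_del {m : ℕ} (U : SimpleGraph (Fin m)) (G : Set (Fin m)) (u v : Fin m)
    (hG : (U.induce G).Preconnected) (h : ¬ (u ∈ G ∧ v ∈ G)) {x y : Fin m} (hx : x ∈ G)
    (hy : y ∈ G) : (U \ SimpleGraph.fromEdgeSet {s(u, v)}).Reachable x y := by
  have h1 := hG ⟨x, hx⟩ ⟨y, hy⟩
  let φ : (U.induce G) →g (U \ SimpleGraph.fromEdgeSet {s(u, v)}) :=
    { toFun := fun z => z.1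
      map_rel' := by
        intro a b hab
        rw [SimpleGraph.sdiff_adj]
        refine ⟨hab, ?_⟩
        rw [SimpleGraph.fromEdgeSet_adj]
        rintro ⟨h2, _⟩
        rw [Set.mem_singleton_iff, Sym2.eq_iff] at h2
        rcases h2 with ⟨h3, h4⟩ | ⟨h3, h4⟩
        · exact h ⟨h3 ▸ a.2, h4 ▸ b.2⟩
        · exact h ⟨h4 ▸ b.2, h3 ▸ a.2⟩ }
  exact h1.map φ

/-- Two edges across a cut are equal. -/
theorem key {m : ℕ} (U : SimpleGraph (Fin m)) (hU : U.IsAcyclic) (G : Set (Fin m))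
    (hG : IsCut U G) {u v u' v' : Fin m} (hu : u ∈ G) (hv : v ∉ G) (hu' : u' ∈ G) (hv' : v' ∉ G)
    (h1 : U.Adj u v) (h2 : U.Adj u' v') : u = u' ∧ v = v' := by
  by_contra hne
  obtain ⟨-, -, hc1, hc2⟩ := hG
  have hb := SimpleGraph.isAcyclic_iff_forall_isBridge.mp hU ((SimpleGraph.mem_edgeSet U).mpr h1)
  rw [SimpleGraph.isBridge_iff] at hb
  apply hb
  have r1 := reach_del U G u v hc1 (fun h => hv h.2) hu hu'
  have r2 := reach_del U Gᶜ u v hc2 (fun h => h.1 hu) (x := v') (y := v) hv' hv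
  have r3 : (U \ SimpleGraph.fromEdgeSet {s(u, v)}).Adj u' v' := by
    rw [SimpleGraph.sdiff_adj]
    refine ⟨h2, ?_⟩
    rw [SimpleGraph.fromEdgeSet_adj]
    rintro ⟨h3, _⟩
    rw [Set.mem_singleton_iff, Sym2.eq_iff] at h3
    rcases h3 with ⟨h4, h5⟩ | ⟨h4, h5⟩
    · exact hne ⟨h4.symm, h5.symm⟩
    · exact hv (h4 ▸ hu')
  exact (r1.trans r3.reachable).trans r2

theorem pf_CUT : T_CUT := by
  intro m U hU
  refine ⟨fun G hG => hG.1, ?_, ?_⟩
  · rintro G hG rfl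
    obtain ⟨x, hx⟩ := hG.2.1
    exact hx (Set.mem_univ x)
  · intro G hG H hH
    by_contra hcon
    push Not at hcon
    obtain ⟨h1, h2, h3, h4⟩ := hcon
    obtain ⟨b, hb, hb'⟩ := Set.not_subset.mp h1
    obtain ⟨c, hc, hc'⟩ := Set.not_subset.mp h2
    obtain ⟨a, ha, ha'⟩ := Set.not_disjoint_iff.mp h3
    obtain ⟨d, hd⟩ := (Set.ne_univ_iff_exists_notMem _).mp h4
    have hd1 : d ∉ G := fun h => hd (Or.inl h)
    have hd2 : d ∉ H := fun h => hd (Or.inr h)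
    obtain ⟨p, q, e1, e2, e3⟩ := exists_edge (U.induce G) (fun z => z.1 ∈ H)
      (hG.2.2.1 ⟨a, ha⟩ ⟨b, hb⟩) ha' hb'
    obtain ⟨p', q', e1', e2', e3'⟩ := exists_edge (U.induce Gᶜ) (fun z => z.1 ∈ H)
      (hG.2.2.2 ⟨c, hc'⟩ ⟨d, hd1⟩) hc hd2
    have hk := key U hU.isAcyclic H hH e2 e3 e2' e3' e1 e1'
    exact p'.2 (hk.1 ▸ p.2)

end Pool.Agent.H20.WT
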