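import Pool.Agent.H38.WT.Targets

/-!
# Containment of the path `1 - 0 - 2 - ...` in terms of cuts
-/

set_option autoImplicit false

noncomputable section

namespace Pool.Agent.H20.WT

open Pool.Agent.H38.WT

theorem cD_pos {n m : ℕ} (T : SimpleGraph (Fin n)) (U : SimpleGraph (Fin m)) :
    0 < cD T U ↔ ∃ f r, IsDisplay T U f r := by
  unfold cD
  rw [Nat.card_pos_iff]
  constructor
  · rintro ⟨⟨p, hp⟩, -⟩
    exact ⟨p.1, p.2, hp⟩
  · rintro ⟨f, r, h⟩
    exact ⟨⟨⟨(f, r), h⟩⟩, inferInstance⟩

theorem sw_zero {n : ℕ} (h : 3 ≤ n) (a : Fin n) (ha : (a : ℕ) = 0) :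
    ((sw n a : Fin n) : ℕ) = 1 := by
  unfold sw
  rw [dif_pos (by omega), Equiv.swap_apply_def, if_pos (Fin.ext ha)]

theorem sw_one {n : ℕ} (h : 3 ≤ n) (a : Fin n) (ha : (a : ℕ) = 1) :
    ((sw n a : Fin n) : ℕ) = 0 := by
  unfold sw
  rw [dif_pos (by omega), Equiv.swap_apply_def, if_neg, if_pos (Fin.ext ha)]
  intro h1
  have := congrArg Fin.val h1
  simp only at this
  omega

theorem sw_big {n : ℕ} (h : 3 ≤ n) (a : Fin n) (ha : 2 ≤ (a : ℕ)) :
    ((sw n a : Fin n) : ℕ) = a := by
  unfold sw
  rw [dif_pos (by omega), Equiv.swap_apply_def, if_neg, if_neg]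
  · intro h1
    have := congrArg Fin.val h1
    simp only at this
    omega
  · intro h1
    have := congrArg Fin.val h1
    simp only at this
    omega

theorem pf_D21 (h1 : T_DWF) (h2 : T_DWB) (h3 : T_PT) : T_D21 := by
  intro n m U hn hU
  have hpw := (h3 n hn).2.2.2.1
  rw [cD_pos]
  constructor
  · rintro ⟨f, r, hd⟩
    obtain ⟨g, hg⟩ := h1 n m (pJ n) U (sw n) f r hpw hd
    have e0 : sw n ⟨0, by omega⟩ = ⟨1, by omega⟩ := Fin.ext (sw_zero hn _ rfl)
    have e1 : sw n ⟨1, by omega⟩ = ⟨0, by omega⟩ := Fin.ext (sw_one hn _ rfl)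
    have e2 : ∀ a (ha : a < n), 2 ≤ a → sw n ⟨a, ha⟩ = ⟨a, ha⟩ :=
      fun a ha hb => Fin.ext (sw_big hn _ hb)
    refine ⟨g 1, hg.cut 1 (by omega) (by omega), g 2, hg.cut 2 (by omega) (by omega),
      hg.sub 1 (by omega), r ⟨1, by omega⟩, ?_, r ⟨0, by omega⟩, ?_, ?_, ?_, ?_⟩
    · have := hg.mem ⟨0, by omega⟩
      rwa [e0] at this
    · have := hg.mem ⟨1, by omega⟩
      rwa [e1] at this
    · have := hg.nmem ⟨1, by omega⟩
      rwa [e1] at this
    · exact hg.mono (by rw [Fin.lt_def]; norm_num)
    · obtain ⟨s, hs⟩ : ∃ s : ℕ → Fin m, ∀ i (h : i + 2 < n), s i = r ⟨i + 2, h⟩ :=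
        ⟨fun i => if h : i + 2 < n then r ⟨i + 2, h⟩ else r ⟨0, by omega⟩,
          fun i h => dif_pos h⟩
      refine ⟨fun i => g (i + 2), s, rfl, ?_, ?_, ?_⟩
      · rw [hs 0 (by omega)]
        exact hg.mono (by rw [Fin.lt_def]; norm_num)
      · intro i hi
        refine ⟨hg.cut (i + 2) (by omega) (by omega), ?_⟩
        rw [hs i (by omega)]
        have := hg.nmem ⟨i + 2, by omega⟩
        rwa [e2 _ _ (by omega)] at this
      · intro i hi
        refine ⟨hg.sub (i + 2) (by omega), ?_, ?_⟩
        · rw [hs i (by omega)]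
          have := hg.mem ⟨i + 2, by omega⟩
          rwa [e2 _ _ (by omega)] at this
        · rw [hs i (by omega), hs (i + 1) (by omega)]
          exact hg.mono (by rw [Fin.lt_def]; simp only; omega)
  · rintro ⟨G', hG', G, hG, hsub, x, hx, y, hy, hy', hyx, g, s, hg0, hxs, hA, hB⟩
    have hs : ∀ j, j < n - 2 → ∀ i, i < j → s i < s j := by
      intro j
      induction j with
      | zero => intro _ i hi; omega
      | succ j ih =>
        intro hj i hi
        have h5 := (hB j (by omega)).2.2
        rcases Nat.lt_succ_iff_lt_or_eq.mp hi with h6 | h6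
        · exact (ih (by omega) i h6).trans h5
        · rw [h6]; exact h5
    have hs0 : ∀ j, j < n - 2 → s 0 ≤ s j := by
      intro j hj
      rcases Nat.eq_zero_or_pos j with h6 | h6
      · rw [h6]
      · exact (hs j hj 0 h6).le
    let g2 : ℕ → Set (Fin m) := fun a => if a = 0 then ∅ else if a = 1 then G' else
      if a < n then g (a - 2) else Set.univ
    let r : Fin n → Fin m := fun i => if (i : ℕ) = 0 then y else if (i : ℕ) = 1 then x else
      s ((i : ℕ) - 2)
    have hg20 : g2 0 = ∅ := if_pos rfl
    have hg21 : g2 1 = G' := by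
      change (if (1 : ℕ) = 0 then ∅ else if (1 : ℕ) = 1 then G' else
        if 1 < n then g (1 - 2) else Set.univ) = G'
      rw [if_neg (by norm_num), if_pos rfl]
    have hg2b : ∀ a, 2 ≤ a → a < n → g2 a = g (a - 2) := by
      intro a ha hb
      simp only [g2]
      rw [if_neg (by omega), if_neg (by omega), if_pos hb]
    have hg2n : g2 n = Set.univ := by
      simp only [g2]
      rw [if_neg (by omega), if_neg (by omega), if_neg (by omega)]
    have hr0 : ∀ i : Fin n, (i : ℕ) = 0 → r i = y := fun i hi => if_pos hi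
    have hr1 : ∀ i : Fin n, (i : ℕ) = 1 → r i = x := by
      intro i hi
      simp only [r]
      rw [if_neg (by omega), if_pos hi]
    have hrb : ∀ i : Fin n, 2 ≤ (i : ℕ) → r i = s ((i : ℕ) - 2) := by
      intro i hi
      simp only [r]
      rw [if_neg (by omega), if_neg (by omega)]
    have hch : Chain U (sw n) g2 r := by
      refine ⟨?_, hg20, hg2n, ?_, ?_, ?_, ?_⟩
      · intro i j hij
        rw [Fin.lt_def] at hij
        rcases Nat.lt_or_ge (j : ℕ) 2 with hj | hj
        · rw [hr0 i (by omega), hr1 j (by omega)]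
          exact hyx
        · rw [hrb j hj]
          have h6 := hs0 ((j : ℕ) - 2) (by omega)
          rcases Nat.lt_or_ge (i : ℕ) 2 with hi | hi
          · rcases Nat.lt_or_ge (i : ℕ) 1 with hi' | hi'
            · rw [hr0 i (by omega)]
              exact (hyx.trans hxs).trans_le h6
            · rw [hr1 i (by omega)]
              exact hxs.trans_le h6
          · rw [hrb i hi]
            exact hs _ (by omega) _ (by omega)
      · intro a ha
        rcases Nat.lt_or_ge a 1 with h6 | h6
        · have : a = 0 := by omega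
          subst this
          rw [hg20]
          exact Set.empty_subset _
        · rcases Nat.lt_or_ge a 2 with h7 | h7
          · have : a = 1 := by omega
            subst this
            rw [hg21, hg2b 2 le_rfl (by omega), Nat.sub_self, hg0]
            exact hsub
          · rw [hg2b a h7 ha]
            rcases Nat.lt_or_ge (a + 1) n with h8 | h8
            · rw [hg2b (a + 1) (by omega) h8]
              have h9 := (hB (a - 2) (by omega)).1
              have h10 : a - 2 + 1 = a + 1 - 2 := by omega
              rwa [h10] at h9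
            · have h9 : a + 1 = n := by omega
              rw [h9, hg2n]
              exact Set.subset_univ _
      · intro a h6 h7
        rcases Nat.lt_or_ge a 2 with h8 | h8
        · have : a = 1 := by omega
          subst this
          rw [hg21]
          exact hG'
        · rw [hg2b a h8 h7]
          exact (hA (a - 2) (by omega)).1
      · intro a
        have ha := a.2
        rcases Nat.lt_or_ge (a : ℕ) 2 with h8 | h8
        · rcases Nat.lt_or_ge (a : ℕ) 1 with h9 | h9
          · have h10 : (a : ℕ) = 0 := by omega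
            rw [hr1 _ (sw_zero hn a h10), h10, Nat.zero_add, hg21]
            exact hx
          · have h10 : (a : ℕ) = 1 := by omega
            rw [hr0 _ (sw_one hn a h10), h10, hg2b (1 + 1) (by omega) (by omega), hg0]
            exact hy
        · have h11 := sw_big hn a h8
          rw [hrb _ (by omega), h11]
          rcases Nat.lt_or_ge ((a : ℕ) + 1) n with h12 | h12
          · rw [hg2b _ (by omega) h12]
            have h9 := (hB ((a : ℕ) - 2) (by omega)).2.1
            have h10 : (a : ℕ) - 2 + 1 = a + 1 - 2 := by omega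
            rwa [h10] at h9
          · have h9 : (a : ℕ) + 1 = n := by omega
            rw [h9, hg2n]
            exact Set.mem_univ _
      · intro a
        have ha := a.2
        rcases Nat.lt_or_ge (a : ℕ) 2 with h8 | h8
        · rcases Nat.lt_or_ge (a : ℕ) 1 with h9 | h9
          · have h10 : (a : ℕ) = 0 := by omega
            rw [h10, hg20]
            exact Set.notMem_empty _
          · have h10 : (a : ℕ) = 1 := by omega
            rw [hr0 _ (sw_one hn a h10), h10, hg21]
            exact hy'
        · have h11 := sw_big hn a h8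
          rw [hrb _ (by omega), h11, hg2b _ h8 ha]
          exact (hA ((a : ℕ) - 2) (by omega)).2
    obtain ⟨f, hf⟩ := h2 n m (pJ n) U (sw n) g2 r hpw hU hch
    exact ⟨f, r, hf⟩

end Pool.Agent.H20.WT
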